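import Pool.Agent.W99.Dom.Weight

set_option autoImplicit false

/-!
MP_257582_lc. Dominating sets in the invariant graphs.
-/

namespace Pool.Agent.W99.Dom

open Finset
open Pool.Agent.H119R2.Kp (GP PV pve_map_adj)
open Pool.Agent.TH669.KP (GR GR_adj sgn bit)

/-- there is a dominating set with at most `k` vertices -/
def Dm {V : Type} (k : ℕ) (G : SimpleGraph V) : Prop :=
  ∃ D : Finset V, D.card ≤ k ∧ ∀ v, v ∈ D ∨ ∃ w ∈ D, G.Adj w v

theorem Dm.map {V W : Type} {k : ℕ} {G : SimpleGraph V} (e : V ≃ W) (h : Dm k G) :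
    Dm k (G.map e.toEmbedding) := by
  obtain ⟨D, hD, hG⟩ := h
  refine ⟨D.map e.toEmbedding, by rw [Finset.card_map]; exact hD, fun v => ?_⟩
  rcases hG (e.symm v) with h1 | ⟨w, hw, h1⟩
  · left
    rw [Finset.mem_map]
    exact ⟨_, h1, by simp⟩
  · right
    refine ⟨e w, ?_, ?_⟩
    · rw [Finset.mem_map]
      exact ⟨w, hw, rfl⟩
    · rw [pve_map_adj]
      simpa using h1

theorem Dm.mono {V : Type} {k : ℕ} {G H : SimpleGraph V} (hGH : G ≤ H) (h : Dm k G) : Dm k H := by
  obtain ⟨D, hD, hG⟩ := h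
  refine ⟨D, hD, fun v => ?_⟩
  rcases hG v with h1 | ⟨w, hw, h1⟩
  · exact Or.inl h1
  · exact Or.inr ⟨w, hw, hGH h1⟩

theorem PV_Dm {n k : ℕ} {V : Type} (e0 : V ≃ Fin n) (G : SimpleGraph V) :
    PV (fun G : SimpleGraph (Fin n) => Dm k G) V G ↔ Dm k G := by
  constructor
  · rintro ⟨e, he⟩
    have h := Dm.map e.symm he
    have h2 : (G.map e.toEmbedding).map e.symm.toEmbedding = G := by
      ext v w
      rw [pve_map_adj, pve_map_adj]
      simp
    rwa [h2] at h
  · intro h
    exact ⟨e0, h.map e0⟩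

/-- a graph without isolated vertices has a dominating set with at most half of the vertices -/
theorem ore {V : Type} [Fintype V] [DecidableEq V] (G : SimpleGraph V) (hG : ∀ v, ∃ w, G.Adj v w)
    {k : ℕ} (hk : Fintype.card V ≤ 2 * k) : Dm k G := by
  classical
  have h0 : ∃ d, ∃ D : Finset V, D.card = d ∧ ∀ v, v ∈ D ∨ ∃ w ∈ D, G.Adj w v :=
    ⟨_, univ, rfl, fun v => Or.inl (Finset.mem_univ v)⟩
  obtain ⟨D, hD, hdom⟩ := Nat.find_spec h0
  have hmin := @Nat.find_min _ _ h0
  have hc : ∀ v, v ∈ Dᶜ ∨ ∃ w ∈ Dᶜ, G.Adj w v := by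
    intro x
    by_cases hx : x ∈ D
    · right
      by_contra hcon
      push Not at hcon
      have h1 : ∀ w, G.Adj w x → w ∈ D := by
        intro w hw
        by_contra h2
        exact hcon w (Finset.mem_compl.2 h2) hw
      refine hmin (m := (D.erase x).card) ?_ ⟨D.erase x, rfl, fun v => ?_⟩
      · rw [← hD]
        exact Finset.card_erase_lt_of_mem hx
      · by_cases hv : v = x
        · right
          subst hv
          obtain ⟨w, hw⟩ := hG v
          exact ⟨w, Finset.mem_erase.2 ⟨hw.ne', h1 w hw.symm⟩, hw.symm⟩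
        · rcases hdom v with h2 | ⟨w, hw, h2⟩
          · exact Or.inl (Finset.mem_erase.2 ⟨hv, h2⟩)
          · by_cases hwx : w = x
            · subst hwx
              exact Or.inl (Finset.mem_erase.2 ⟨hv, h1 v h2.symm⟩)
            · exact Or.inr ⟨w, Finset.mem_erase.2 ⟨hwx, hw⟩, h2⟩
    · exact Or.inl (Finset.mem_compl.2 hx)
  have hcard := Finset.card_add_card_compl D
  rcases Nat.le_total D.card k with h | h
  · exact ⟨D, h, hdom⟩
  · exact ⟨Dᶜ, by omega, hc⟩

variable (m N t : ℕ)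

/-- the parts `p` and `q` are joined -/
def Cr (ξ : Xl m t → Bool) (p q : Sv m t) : Prop :=
  ∃ h : ¬ (s(p, q) : Sym2 (Sv m t)).IsDiag, ξ ⟨s(p, q), h⟩ = true

theorem Cr.symm {m t : ℕ} {ξ : Xl m t → Bool} {p q : Sv m t} (h : Cr m t ξ p q) :
    Cr m t ξ q p := by
  obtain ⟨h1, h2⟩ := h
  have h3 : (s(p, q) : Sym2 (Sv m t)) = s(q, p) := Sym2.eq_swap
  refine ⟨by rwa [h3] at h1, ?_⟩
  simpa only [h3] using h2

theorem Cr.ne {m t : ℕ} {ξ : Xl m t → Bool} {p q : Sv m t} (h : Cr m t ξ p q) : p ≠ q := by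
  obtain ⟨h1, -⟩ := h
  simpa using h1

variable {m N t}
variable {ξ : Xl m t → Bool} {κ : Dl N → Bool} {I : Fin m → (Fin 3 → Bool)}

theorem adj_cross {v w : Vx m N t} (h : prt m N t v ≠ prt m N t w) :
    (GI m N t ξ κ I).Adj v w ↔ Cr m t ξ (prt m N t v) (prt m N t w) := by
  rw [GR_adj]
  unfold orb0 Cr
  rw [dif_neg h]
  constructor
  · rintro ⟨j, hj, hχ⟩
    simp only [Option.some.injEq] at hj
    subst hj
    exact ⟨by simpa using h, hχ⟩
  · rintro ⟨h1, h2⟩
    exact ⟨_, rfl, h2⟩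

theorem adj_blk {i : Fin m} {x y : Bool × Bool} :
    (GI m N t ξ κ I).Adj (.inl (i, x)) (.inl (i, y)) ↔ ∃ c, mt (dx x y) = some c ∧ I i c = true := by
  rw [GR_adj]
  unfold orb0
  rw [dif_pos (show prt m N t (.inl (i, x)) = prt m N t (.inl (i, y)) from rfl)]
  simp only [inner, Option.map_eq_some_iff]
  constructor
  · rintro ⟨j, ⟨c, hc, rfl⟩, hχ⟩
    exact ⟨c, hc, hχ⟩
  · rintro ⟨c, hc, hχ⟩
    exact ⟨_, ⟨c, hc, rfl⟩, hχ⟩

theorem adj_N {z z' : ZMod N} :
    (GI m N t ξ κ I).Adj (.inr (.inl z)) (.inr (.inl z')) ↔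
      ∃ h : z - z' ≠ 0, κ (dl N (z - z') h) = true := by
  rw [GR_adj]
  unfold orb0
  rw [dif_pos (show prt m N t (.inr (.inl z)) = prt m N t (.inr (.inl z')) from rfl)]
  simp only [inner]
  constructor
  · rintro ⟨j, hj, hχ⟩
    split_ifs at hj with h1
    simp only [Option.some.injEq] at hj
    subst hj
    exact ⟨sub_ne_zero.2 h1, hχ⟩
  · rintro ⟨h1, hχ⟩
    rw [dif_neg (sub_ne_zero.1 h1)]
    exact ⟨_, rfl, hχ⟩

theorem prt_rep (p : Sv m t) [NeZero N] : ∃ v, prt m N t v = p := by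
  rcases p with i | (_ | u)
  · exact ⟨.inl (i, (false, false)), rfl⟩
  · exact ⟨.inr (.inl 0), rfl⟩
  · exact ⟨.inr (.inr u), rfl⟩

theorem prt_inl {v : Vx m N t} {i : Fin m} (h : prt m N t v = .inl i) : ∃ x, v = .inl (i, x) := by
  rcases v with a | (z | u)
  · simp only [prt, Sum.inl.injEq] at h
    exact ⟨a.2, by rw [← h]⟩
  · simp [prt] at h
  · simp [prt] at h

theorem prt_none {v : Vx m N t} (h : prt m N t v = .inr none) : ∃ z, v = .inr (.inl z) := by
  rcases v with a | (z | u)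
  · simp [prt] at h
  · exact ⟨z, rfl⟩
  · simp [prt] at h

theorem prt_some {v : Vx m N t} {u : Fin t} (h : prt m N t v = .inr (some u)) :
    v = .inr (.inr u) := by
  rcases v with a | (z | u)
  · simp [prt] at h
  · simp [prt] at h
  · simp only [prt, Sum.inr.injEq, Option.some.injEq] at h
    rw [h]

/-- the adjacency of pairs which are not in the block `i` does not depend on `I i` -/
theorem adj_update {I' : Fin m → (Fin 3 → Bool)} {i : Fin m} (hI : ∀ j, j ≠ i → I j = I' j)
    {v w : Vx m N t} (h : prt m N t v ≠ .inl i) :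
    (GI m N t ξ κ I).Adj w v ↔ (GI m N t ξ κ I').Adj w v := by
  by_cases hp : prt m N t w = prt m N t v
  · rcases v with a | (z | u) <;> rcases w with b | (z' | u')
    · obtain ⟨j, x⟩ := a
      obtain ⟨j', x'⟩ := b
      simp only [prt, Sum.inl.injEq, ne_eq] at hp h
      subst hp
      rw [adj_blk, adj_blk, hI _ h]
    · simp [prt] at hp
    · simp [prt] at hp
    · simp [prt] at hp
    · rw [adj_N, adj_N]
    · simp [prt] at hp
    · simp [prt] at hp
    · simp [prt] at hp
    · simp only [prt, Sum.inr.injEq, Option.some.injEq] at hp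
      subst hp
      constructor <;> intro h1 <;> exact absurd rfl h1.ne
  · rw [adj_cross hp, adj_cross hp]

theorem exists_nonadj {i : Fin m} (hI : I i ≠ fun _ => true) (x : Bool × Bool) :
    ∃ y, x ≠ y ∧ ¬ (GI m N t ξ κ I).Adj (.inl (i, x)) (.inl (i, y)) := by
  obtain ⟨c, hc⟩ : ∃ c, I i c = false := by
    by_contra hcon
    push Not at hcon
    exact hI (funext fun c => by simpa using hcon c)
  have h1 : ∀ (x : Bool × Bool) (c : Fin 3), ∃ y, x ≠ y ∧ mt (dx x y) = some c := by
    decide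
  obtain ⟨y, hxy, hy⟩ := h1 x c
  refine ⟨y, hxy, ?_⟩
  rw [adj_blk]
  rintro ⟨c', hc', h2⟩
  rw [hy, Option.some.injEq] at hc'
  subst hc'
  rw [hc] at h2
  cases h2

/-- a block of size four which is not complete and contains at most one vertex of a dominating set
is joined to a part which contains a vertex of the dominating set -/
theorem dom_outside {i : Fin m} (hI : I i ≠ fun _ => true) {D : Finset (Vx m N t)}
    (hD : ∀ v, v ∈ D ∨ ∃ w ∈ D, (GI m N t ξ κ I).Adj w v)
    (h1 : ∀ x ∈ D, ∀ y ∈ D, prt m N t x = .inl i → prt m N t y = .inl i → x = y) :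
    ∃ w ∈ D, Cr m t ξ (prt m N t w) (.inl i) := by
  have h2 : ∃ y, .inl (i, y) ∉ D ∧ ∀ x, .inl (i, x) ∈ D →
      ¬ (GI m N t ξ κ I).Adj (.inl (i, x)) (.inl (i, y)) := by
    by_cases h3 : ∃ x, (.inl (i, x) : Vx m N t) ∈ D
    · obtain ⟨x, hx⟩ := h3
      obtain ⟨y, hxy, hy⟩ := exists_nonadj (N := N) (t := t) (ξ := ξ) (κ := κ) hI x
      refine ⟨y, fun h4 => ?_, fun x' hx' => ?_⟩
      · have h5 := h1 _ hx _ h4 rfl rfl
        simp only [Sum.inl.injEq, Prod.mk.injEq, true_and] at h5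
        exact hxy h5
      · have h5 := h1 _ hx _ hx' rfl rfl
        rw [← h5]
        exact hy
    · exact ⟨(false, false), fun h => h3 ⟨_, h⟩, fun x hx => absurd ⟨x, hx⟩ h3⟩
  obtain ⟨y, hy, hy'⟩ := h2
  rcases hD (.inl (i, y)) with h3 | ⟨w, hw, h3⟩
  · exact absurd h3 hy
  · refine ⟨w, hw, ?_⟩
    by_cases hp : prt m N t w = .inl i
    · obtain ⟨x, rfl⟩ := prt_inl hp
      exact absurd h3 (hy' x hw)
    · have h4 := (adj_cross (v := w) (w := .inl (i, y)) hp).1 h3
      exact h4

/-- a block of size four which is joined to another part: the inner edges do not matter, if it is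
not complete -/
theorem dom_attached [NeZero N] {k : ℕ} {I' : Fin m → (Fin 3 → Bool)} {i : Fin m}
    (hI : I i ≠ fun _ => true) (hI' : ∀ j, j ≠ i → I j = I' j)
    (hi : ∃ p, Cr m t ξ p (.inl i)) (h : Dm k (GI m N t ξ κ I)) : Dm k (GI m N t ξ κ I') := by
  classical
  obtain ⟨D, hk, hD⟩ := h
  by_cases h1 : ∀ x ∈ D, ∀ y ∈ D, prt m N t x = .inl i → prt m N t y = .inl i → x = y
  · obtain ⟨w, hw, hw'⟩ := dom_outside hI hD h1
    refine ⟨D, hk, fun v => ?_⟩
    by_cases hv : prt m N t v = .inl i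
    · right
      refine ⟨w, hw, ?_⟩
      rw [adj_cross (by rw [hv]; exact hw'.ne), hv]
      exact hw'
    · rcases hD v with h2 | ⟨w', hw2, h2⟩
      · exact Or.inl h2
      · exact Or.inr ⟨w', hw2, (adj_update hI' hv).1 h2⟩
  · push Not at h1
    obtain ⟨x, hx, y, hy, hxi, hyi, hxy⟩ := h1
    obtain ⟨p, hp⟩ := hi
    obtain ⟨w, hw⟩ := prt_rep (N := N) p
    have hcard := Finset.card_filter_add_card_filter_not (s := D) (fun v => prt m N t v = .inl i)
    have h2 : 1 < (D.filter fun v => prt m N t v = .inl i).card := by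
      rw [Finset.one_lt_card]
      exact ⟨x, Finset.mem_filter.2 ⟨hx, hxi⟩, y, Finset.mem_filter.2 ⟨hy, hyi⟩, hxy⟩
    refine ⟨insert x (insert w (D.filter fun v => ¬ prt m N t v = .inl i)), ?_, fun v => ?_⟩
    · have h3 := Finset.card_insert_le x (insert w (D.filter fun v => ¬ prt m N t v = .inl i))
      have h4 := Finset.card_insert_le w (D.filter fun v => ¬ prt m N t v = .inl i)
      omega
    · by_cases hv : prt m N t v = .inl i
      · right
        refine ⟨w, by simp, ?_⟩
        rw [adj_cross (by rw [hw, hv]; exact hp.ne), hw, hv]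
        exact hp
      · rcases hD v with h3 | ⟨w', hw', h3⟩
        · left
          simp [h3, hv]
        · right
          by_cases hp' : prt m N t w' = .inl i
          · refine ⟨x, by simp, ?_⟩
            have h5 : prt m N t w' ≠ prt m N t v := by rw [hp']; exact fun h => hv h.symm
            rw [adj_cross h5, hp', ← hxi] at h3
            rw [adj_cross (by rw [hxi]; exact fun h => hv h.symm)]
            exact h3
          · refine ⟨w', by simp [hw', hp'], (adj_update hI' hv).1 h3⟩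

/-- the cyclic block is joined to a single vertex, and all blocks of size four are isolated -/
theorem dom_single [NeZero N] {k : ℕ} {κ' : Dl N → Bool} {u : Fin t} (ht : ∀ u' : Fin t, u' = u)
    (hu : Cr m t ξ (.inr none) (.inr (some u))) (hi : ∀ i p, ¬ Cr m t ξ p (.inl i))
    (h : Dm k (GI m N t ξ κ I)) : Dm k (GI m N t ξ κ' I) := by
  classical
  obtain ⟨D, hk, hD⟩ := h
  have h1 : ∃ v ∈ D, ∀ i, prt m N t v ≠ .inl i := by
    rcases hD (.inr (.inl 0)) with h1 | ⟨w, hw, h1⟩
    · exact ⟨_, h1, fun i => by simp [prt]⟩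
    · refine ⟨w, hw, fun i hwi => ?_⟩
      rw [adj_cross (by rw [hwi]; simp [prt]), hwi] at h1
      exact hi i _ h1.symm
  obtain ⟨v0, hv0, hv0'⟩ := h1
  obtain ⟨S, hS⟩ : ∃ S : Finset (Vx m N t), ∀ v, v ∈ S ↔ v ∈ D ∧ ∃ i, prt m N t v = .inl i :=
    ⟨D.filter fun v => ∃ i, prt m N t v = .inl i, fun v => by rw [Finset.mem_filter]⟩
  refine ⟨insert (.inr (.inr u)) S, ?_, fun v => ?_⟩
  · have h2 := Finset.card_insert_le (.inr (.inr u) : Vx m N t) S
    have h3 : S.card < D.card := by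
      refine Finset.card_lt_card ?_
      rw [Finset.ssubset_iff_of_subset (fun v hv => ((hS v).1 hv).1)]
      exact ⟨v0, hv0, fun h => by
        obtain ⟨-, i, h⟩ := (hS v0).1 h
        exact hv0' i h⟩
    omega
  · rcases hp : prt m N t v with i | (_ | u')
    · rcases hD v with h2 | ⟨w, hw, h2⟩
      · left
        simp [hS, h2, hp]
      · right
        have hwi : prt m N t w = .inl i := by
          by_contra hcon
          rw [adj_cross (by rw [hp]; exact hcon), hp] at h2
          exact hi i _ h2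
        refine ⟨w, by simp [hS, hw, hwi], ?_⟩
        obtain ⟨x, rfl⟩ := prt_inl hp
        obtain ⟨y, rfl⟩ := prt_inl hwi
        rw [adj_blk] at h2 ⊢
        exact h2
    · right
      refine ⟨.inr (.inr u), by simp, ?_⟩
      rw [adj_cross (by rw [hp]; simp [prt]), hp]
      exact hu.symm
    · left
      rw [prt_some hp, ht u']
      simp

end Pool.Agent.W99.Dom
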