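import Pool.Agent.W99.Dom.Dom

set_option autoImplicit false

/-!
MP_257582_lc. Evaluation of the relation for the domination number.
-/

namespace Pool.Agent.W99.Dom

open Finset
open Pool.Agent.H119R2.Kp (GP PV pve_map_adj)
open Pool.Agent.TH669.KP (GR GR_adj sgn bit bit_pos bit_neg bit_congr sum_sgn)

variable {m N t : ℕ}
variable {ξ : Xl m t → Bool} {κ : Dl N → Bool} {I : Fin m → (Fin 3 → Bool)}

theorem not_Cr_bot {p q : Sv m t} : ¬ Cr m t (fun _ => false) p q := by
  rintro ⟨h1, h2⟩
  cases h2

theorem dom_zero_mpr [NeZero N] (hI : ∀ i, I i ≠ fun _ => false) (hκ : κ = fun _ => true) :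
    Dm (2 * m + 1 + t) (GI m N t ξ κ I) := by
  classical
  have h1 : ∀ c : Fin 3, ∃ e : Bool × Bool, ∀ y : Bool × Bool, y = (false, false) ∨ y = e ∨
      mt (dx (false, false) y) = some c ∨ mt (dx e y) = some c := by decide
  have h2 : ∀ i, ∃ e : Bool × Bool, ∀ y : Bool × Bool, y = (false, false) ∨ y = e ∨
      (GI m N t ξ κ I).Adj (.inl (i, (false, false))) (.inl (i, y)) ∨
      (GI m N t ξ κ I).Adj (.inl (i, e)) (.inl (i, y)) := by
    intro i
    obtain ⟨c, hc⟩ : ∃ c, I i c = true := by
      by_contra hcon
      push Not at hcon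
      exact hI i (funext fun c => by simpa using hcon c)
    obtain ⟨e, he⟩ := h1 c
    refine ⟨e, fun y => ?_⟩
    rcases he y with h | h | h | h
    · exact Or.inl h
    · exact Or.inr (Or.inl h)
    · exact Or.inr (Or.inr (Or.inl (adj_blk.2 ⟨c, h, hc⟩)))
    · exact Or.inr (Or.inr (Or.inr (adj_blk.2 ⟨c, h, hc⟩)))
  choose e he using h2
  refine ⟨(univ.image fun p : Fin m × Bool =>
      (.inl (p.1, if p.2 = true then e p.1 else (false, false)) : Vx m N t)) ∪
    insert (.inr (.inl 0)) (univ.image fun u : Fin t => (.inr (.inr u) : Vx m N t)), ?_, ?_⟩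
  · refine (Finset.card_union_le _ _).trans ?_
    have h3 : (univ.image fun p : Fin m × Bool =>
      (.inl (p.1, if p.2 = true then e p.1 else (false, false)) : Vx m N t)).card ≤ m * 2 := by
      refine Finset.card_image_le.trans ?_
      simp
    have h4 := Finset.card_insert_le (.inr (.inl 0) : Vx m N t)
      (univ.image fun u : Fin t => (.inr (.inr u) : Vx m N t))
    have h5 : (univ.image fun u : Fin t => (.inr (.inr u) : Vx m N t)).card ≤ t := by
      refine Finset.card_image_le.trans ?_
      simp
    omega
  · rintro (⟨i, y⟩ | (z | u))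
    · have m1 : (.inl (i, (false, false)) : Vx m N t) ∈ (univ.image fun p : Fin m × Bool =>
          (.inl (p.1, if p.2 = true then e p.1 else (false, false)) : Vx m N t)) := by
        rw [Finset.mem_image]
        exact ⟨(i, false), Finset.mem_univ _, by simp⟩
      have m2 : (.inl (i, e i) : Vx m N t) ∈ (univ.image fun p : Fin m × Bool =>
          (.inl (p.1, if p.2 = true then e p.1 else (false, false)) : Vx m N t)) := by
        rw [Finset.mem_image]
        exact ⟨(i, true), Finset.mem_univ _, by simp⟩
      rcases he i y with h | h | h | h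
      · rw [h]
        exact Or.inl (Finset.mem_union_left _ m1)
      · rw [h]
        exact Or.inl (Finset.mem_union_left _ m2)
      · exact Or.inr ⟨_, Finset.mem_union_left _ m1, h⟩
      · exact Or.inr ⟨_, Finset.mem_union_left _ m2, h⟩
    · by_cases hz : z = 0
      · left
        rw [hz]
        exact Finset.mem_union_right _ (Finset.mem_insert_self _ _)
      · right
        refine ⟨.inr (.inl 0), Finset.mem_union_right _ (Finset.mem_insert_self _ _), ?_⟩
        rw [adj_N]
        refine ⟨sub_ne_zero.2 (Ne.symm hz), ?_⟩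
        rw [hκ]
    · left
      refine Finset.mem_union_right _ (Finset.mem_insert_of_mem ?_)
      rw [Finset.mem_image]
      exact ⟨u, Finset.mem_univ _, rfl⟩

theorem dom_zero_mp [NeZero N] (hI : ∀ i, I i ≠ fun _ => true)
    (h : Dm (2 * m + 1 + t) (GI m N t (fun _ => false) κ I)) :
    (∀ i, I i ≠ fun _ => false) ∧ κ = fun _ => true := by
  classical
  obtain ⟨D, hk, hD⟩ := h
  let f : Sv m t → ℕ := fun p => (D.filter fun v => prt m N t v = p).card
  have hsum : D.card = ∑ i, f (.inl i) + (f (.inr none) + ∑ u, f (.inr (some u))) := by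
    rw [Finset.card_eq_sum_card_fiberwise (f := prt m N t) (t := univ)
      (fun v _ => Finset.mem_coe.2 (Finset.mem_univ _)), Fintype.sum_sum_type,
      Fintype.sum_option]
  have hsame : ∀ v w, (GI m N t (fun _ => false) κ I).Adj w v → prt m N t w = prt m N t v := by
    intro v w hvw
    by_contra hcon
    exact not_Cr_bot ((adj_cross hcon).1 hvw)
  have hpos : ∀ p, 1 ≤ f p := by
    intro p
    obtain ⟨v, hv⟩ := prt_rep (N := N) p
    refine Finset.card_pos.2 ?_
    rcases hD v with h1 | ⟨w, hw, h1⟩
    · exact ⟨v, Finset.mem_filter.2 ⟨h1, hv⟩⟩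
    · exact ⟨w, Finset.mem_filter.2 ⟨hw, (hsame _ _ h1).trans hv⟩⟩
  have htwo : ∀ i, 2 ≤ f (.inl i) := by
    intro i
    by_contra hcon
    have h1 : f (.inl i) ≤ 1 := by omega
    rw [Finset.card_le_one] at h1
    obtain ⟨w, hw, h2⟩ := dom_outside (hI i) hD fun x hx y hy hxi hyi =>
      h1 x (Finset.mem_filter.2 ⟨hx, hxi⟩) y (Finset.mem_filter.2 ⟨hy, hyi⟩)
    exact not_Cr_bot h2
  have h3 : ∑ u, f (.inr (some u)) ≥ t := by
    have := Finset.sum_le_sum (s := (univ : Finset (Fin t))) fun u _ => hpos (.inr (some u))
    simpa using this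
  have h4 : ∑ i, f (.inl i) ≥ 2 * m := by
    have := Finset.sum_le_sum (s := (univ : Finset (Fin m))) fun i _ => htwo i
    simp only [Finset.sum_const, Finset.card_univ, Fintype.card_fin, smul_eq_mul] at this
    omega
  have h5 : f (.inr none) = 1 := by
    have := hpos (.inr none)
    omega
  have h6 : ∀ i, f (.inl i) ≤ 2 := by
    intro i
    by_contra hcon
    have := Finset.sum_lt_sum (s := (univ : Finset (Fin m))) (fun i _ => htwo i)
      ⟨i, Finset.mem_univ _, not_le.1 hcon⟩
    simp only [Finset.sum_const, Finset.card_univ, Fintype.card_fin, smul_eq_mul] at this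
    omega
  constructor
  · intro i hi
    have h7 : (univ.image fun x : Bool × Bool => (.inl (i, x) : Vx m N t)) ⊆
        D.filter fun v => prt m N t v = .inl i := by
      intro v hv
      rw [Finset.mem_image] at hv
      obtain ⟨x, -, rfl⟩ := hv
      refine Finset.mem_filter.2 ⟨?_, rfl⟩
      rcases hD (.inl (i, x)) with h8 | ⟨w, hw, h8⟩
      · exact h8
      · exfalso
        obtain ⟨y, rfl⟩ := prt_inl (hsame _ _ h8)
        rw [adj_blk] at h8
        obtain ⟨c, -, hc⟩ := h8
        rw [hi] at hc
        cases hc
    have h8 := Finset.card_le_card h7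
    rw [Finset.card_image_of_injective _ (fun x y hxy => by simpa using hxy)] at h8
    have h9 := h6 i
    have h10 : (univ : Finset (Bool × Bool)).card = 4 := by decide
    rw [h10] at h8
    exact absurd (h8.trans h9) (by norm_num)
  · funext l
    obtain ⟨l, d, hd, rfl⟩ := l
    rw [Finset.card_eq_one] at h5
    obtain ⟨v, hv⟩ := h5
    have hv' : v ∈ D.filter fun v => prt m N t v = .inr none := by rw [hv]; simp
    obtain ⟨hvD, hvp⟩ := Finset.mem_filter.1 hv'
    obtain ⟨z, rfl⟩ := prt_none hvp
    have huniq : ∀ w ∈ D, prt m N t w = .inr none → w = .inr (.inl z) := by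
      intro w hw hwp
      have : w ∈ D.filter fun v => prt m N t v = .inr none := Finset.mem_filter.2 ⟨hw, hwp⟩
      rw [hv] at this
      simpa using this
    rcases hD (.inr (.inl (z - d))) with h8 | ⟨w, hw, h8⟩
    · exfalso
      have h9 := huniq _ h8 rfl
      simp only [Sum.inr.injEq, Sum.inl.injEq, sub_eq_self] at h9
      exact hd h9
    · have h9 := huniq w hw (hsame _ _ h8)
      subst h9
      rw [adj_N] at h8
      obtain ⟨h10, h11⟩ := h8
      have h12 : dl N (z - (z - d)) h10 = ⟨s(d, -d), d, hd, rfl⟩ := by
        unfold dl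
        refine Subtype.ext ?_
        simp
      rw [h12] at h11
      exact h11

/-- a sum vanishes if the summand does not depend on the configuration of one block -/
theorem zero_of_const (i : Fin m) (H : (Fin m → (Fin 3 → Bool)) → ℤ)
    (hH : ∀ I I', (∀ j, j ≠ i → I j = I' j) → I i ≠ (fun _ => true) → I' i ≠ (fun _ => true) →
      H I = H I') :
    ∑ I : Fin m → (Fin 3 → Bool), (∏ j, wt (I j)) * H I = 0 := by
  classical
  let e := Equiv.funSplitAt i (Fin 3 → Bool)
  rw [← Equiv.sum_comp e.symm, Fintype.sum_prod_type, Finset.sum_comm]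
  refine Finset.sum_eq_zero fun b _ => ?_
  have hself : ∀ a, e.symm (a, b) i = a := by
    intro a
    have h1 := congrArg Prod.fst (e.apply_symm_apply (a, b))
    exact h1
  have hother : ∀ a a' j, j ≠ i → e.symm (a, b) j = e.symm (a', b) j := by
    intro a a' j hj
    have h1 := congrFun (congrArg Prod.snd (e.apply_symm_apply (a, b))) ⟨j, hj⟩
    have h2 := congrFun (congrArg Prod.snd (e.apply_symm_apply (a', b))) ⟨j, hj⟩
    exact h1.trans h2.symm
  have h1 : ∀ a, (∏ j, wt (e.symm (a, b) j)) * H (e.symm (a, b)) =
      wt a * ((∏ j ∈ univ.erase i, wt (e.symm (fun _ => false, b) j)) *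
        H (e.symm (fun _ => false, b))) := by
    intro a
    rw [← Finset.mul_prod_erase univ _ (Finset.mem_univ i), hself]
    by_cases ha : a = fun _ => true
    · rw [ha, wt_top]
      ring
    · have h2 : H (e.symm (a, b)) = H (e.symm (fun _ => false, b)) := by
        refine hH _ _ (fun j hj => hother _ _ j hj) (by rw [hself]; exact ha) ?_
        rw [hself]
        intro h
        have := congrFun h 0
        cases this
      rw [h2, Finset.prod_congr rfl fun j hj => by
        rw [hother a (fun _ => false) j (Finset.ne_of_mem_erase hj)]]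
      ring
  rw [Finset.sum_congr rfl fun a _ => h1 a, ← Finset.sum_mul, wt_sum, zero_mul]

theorem sgn_ne_zero {X : Type} [Fintype X] (χ : X → Bool) : sgn χ ≠ 0 := by
  unfold sgn
  refine Finset.prod_ne_zero_iff.2 fun j _ => ?_
  split_ifs <;> norm_num

theorem main1 {n q : ℕ} (ht : t ≤ 1) (hN : 2 ≤ N) (hV : 4 * m + (N + t) = n)
    (hQ : GP n q (fun G => Dm (2 * m + 1 + t) G)) (hq : q < n.choose 2) : False := by
  classical
  have hN0 : NeZero N := ⟨by omega⟩
  have hcard : Fintype.card (Vx m N t) = n := by
    simp only [Fintype.card_sum, Fintype.card_fin, Fintype.card_prod, ZMod.card,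
      Fintype.card_bool]
    omega
  let e0 : Vx m N t ≃ Fin n := Fintype.equivFinOfCardEq hcard
  have hr := relation0 m N t hQ hV hq
  simp only [bit_congr (PV_Dm e0 _)] at hr
  have hne : Nonempty (Dl N) := by
    have h1 : (1 : ZMod N) ≠ 0 := by
      have : Fact (1 < N) := ⟨hN⟩
      exact one_ne_zero
    exact ⟨⟨s(1, -1), 1, h1, rfl⟩⟩
  rw [Finset.sum_eq_single (fun _ => false)] at hr
  · have h1 : ∀ κ : Dl N → Bool, sgn (fun _ : Xl m t => false) * sgn κ *
        ∑ I : Fin m → (Fin 3 → Bool), (∏ i, wt (I i)) *
          bit (Dm (2 * m + 1 + t) (GI m N t (fun _ => false) κ I)) =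
        if κ = (fun _ => true) then sgn (fun _ : Xl m t => false) * sgn κ * (-2) ^ m else 0 := by
      intro κ
      have h2 : ∀ I : Fin m → (Fin 3 → Bool), (∏ i, wt (I i)) *
          bit (Dm (2 * m + 1 + t) (GI m N t (fun _ => false) κ I)) =
          if κ = (fun _ => true) then ∏ i, (if I i = (fun _ => false) then 0 else wt (I i))
            else 0 := by
        intro I
        by_cases hI : ∃ i, I i = fun _ => true
        · obtain ⟨i, hi⟩ := hI
          rw [Finset.prod_eq_zero (Finset.mem_univ i) (by rw [hi, wt_top]), zero_mul]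
          split_ifs
          · rw [Finset.prod_eq_zero (Finset.mem_univ i)]
            rw [hi, wt_top]
            simp
          · rfl
        · push Not at hI
          by_cases hκ : κ = fun _ => true
          · rw [if_pos hκ]
            by_cases hI' : ∃ i, I i = fun _ => false
            · obtain ⟨i, hi⟩ := hI'
              rw [bit_neg (fun h => (dom_zero_mp hI h).1 i hi), mul_zero,
                Finset.prod_eq_zero (Finset.mem_univ i) (by rw [if_pos hi])]
            · push Not at hI'
              rw [bit_pos (dom_zero_mpr hI' hκ), mul_one]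
              exact Finset.prod_congr rfl fun i _ => by rw [if_neg (hI' i)]
          · rw [if_neg hκ, bit_neg (fun h => hκ (dom_zero_mp hI h).2), mul_zero]
      rw [Finset.sum_congr rfl fun I _ => h2 I]
      by_cases hκ : κ = fun _ => true
      · rw [if_pos hκ]
        simp only [hκ, if_true]
        rw [Pool.Agent.TH669.KP.sum_prod_fun
          (fun (_ : Fin m) (J : Fin 3 → Bool) => if J = (fun _ => false) then 0 else wt J)]
        rw [wt_sum', Finset.prod_const, Finset.card_univ, Fintype.card_fin]
      · simp [hκ]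
    rw [Finset.sum_congr rfl fun κ _ => h1 κ, Finset.sum_ite_eq' univ, if_pos (Finset.mem_univ _)]
      at hr
    exact mul_ne_zero (mul_ne_zero (sgn_ne_zero _) (sgn_ne_zero _))
      (pow_ne_zero _ (by norm_num)) hr
  · intro ξ _ hξ
    by_cases hA : ∃ i p, Cr m t ξ p (.inl i)
    · obtain ⟨i, p, hi⟩ := hA
      refine Finset.sum_eq_zero fun κ _ => ?_
      rw [zero_of_const i, mul_zero]
      intro I I' h1 h2 h3
      refine bit_congr ⟨fun h => dom_attached h2 h1 ⟨p, hi⟩ h,
        fun h => dom_attached h3 (fun j hj => (h1 j hj).symm) ⟨p, hi⟩ h⟩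
    · push Not at hA
      obtain ⟨l, hl⟩ : ∃ l, ξ l = true := by
        by_contra hcon
        push Not at hcon
        exact hξ (funext fun l => by simpa using hcon l)
      obtain ⟨l, hl'⟩ := l
      have h1 : ∃ u : Fin t, Cr m t ξ (.inr none) (.inr (some u)) := by
        induction l using Sym2.ind with
        | _ p r =>
          have hpr : Cr m t ξ p r := ⟨hl', hl⟩
          rcases p with i | (_ | u)
          · exact absurd hpr.symm (hA i r)
          · rcases r with i | (_ | u)
            · exact absurd hpr (hA i _)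
            · exact absurd rfl hpr.ne
            · exact ⟨u, hpr⟩
          · rcases r with i | (_ | u')
            · exact absurd hpr (hA i _)
            · exact ⟨u, hpr.symm⟩
            · exfalso
              apply hpr.ne
              have : u = u' := by
                apply Fin.ext
                omega
              rw [this]
      obtain ⟨u, hu⟩ := h1
      have hu' : ∀ u' : Fin t, u' = u := fun u' => by
        apply Fin.ext
        omega
      have h2 : ∀ κ : Dl N → Bool, sgn ξ * sgn κ *
          ∑ I : Fin m → (Fin 3 → Bool), (∏ i, wt (I i)) *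
            bit (Dm (2 * m + 1 + t) (GI m N t ξ κ I)) =
          sgn κ * (sgn ξ * ∑ I : Fin m → (Fin 3 → Bool), (∏ i, wt (I i)) *
            bit (Dm (2 * m + 1 + t) (GI m N t ξ (fun _ => false) I))) := by
        intro κ
        rw [mul_comm (sgn ξ), mul_assoc]
        congr 2
        refine Finset.sum_congr rfl fun I _ => ?_
        congr 1
        exact bit_congr ⟨fun h => dom_single hu' hu (fun i p => hA i p) h,
          fun h => dom_single hu' hu (fun i p => hA i p) h⟩
      rw [Finset.sum_congr rfl fun κ _ => h2 κ, ← Finset.sum_mul, sum_sgn, zero_mul]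
  · intro h
    exact absurd (Finset.mem_univ _) h

/-- the case of large `k`: circulant graphs -/
theorem main2 {n k q : ℕ} (hn : 2 ≤ n) (hk : n ≤ 2 * k) (hkn : k < n)
    (hQ : GP n q (fun G => Dm k G)) (hq : q < n.choose 2) : False := by
  classical
  have hN0 : NeZero n := ⟨by omega⟩
  have hcard : Fintype.card (Vx 0 n 0) = n := by
    simp only [Fintype.card_sum, Fintype.card_fin, Fintype.card_prod, ZMod.card,
      Fintype.card_bool]
    omega
  let e0 : Vx 0 n 0 ≃ Fin n := Fintype.equivFinOfCardEq hcard
  have hr := relation0 0 n 0 hQ (by omega) hq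
  simp only [bit_congr (PV_Dm e0 _)] at hr
  have hne : Nonempty (Dl n) := by
    have h1 : (1 : ZMod n) ≠ 0 := by
      have : Fact (1 < n) := ⟨by omega⟩
      exact one_ne_zero
    exact ⟨⟨s(1, -1), 1, h1, rfl⟩⟩
  have hX : IsEmpty (Xl 0 0) := by
    refine ⟨fun l => ?_⟩
    obtain ⟨l, hl⟩ := l
    induction l using Sym2.ind with
    | _ p r =>
      rcases p with i | (_ | u)
      · exact i.elim0
      · rcases r with i | (_ | u)
        · exact i.elim0
        · exact hl (by simp)
        · exact u.elim0
      · exact u.elim0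
  have hvert : ∀ v : Vx 0 n 0, ∃ z, v = .inr (.inl z) := by
    rintro (⟨i, x⟩ | (z | u))
    · exact i.elim0
    · exact ⟨z, rfl⟩
    · exact u.elim0
  have h1 : ∀ (ξ : Xl 0 0 → Bool) (κ : Dl n → Bool), sgn ξ * sgn κ *
      ∑ I : Fin 0 → (Fin 3 → Bool), (∏ i, wt (I i)) * bit (Dm k (GI 0 n 0 ξ κ I)) =
      sgn κ - (if κ = (fun _ => false) then 1 else 0) := by
    intro ξ κ
    rw [Fintype.sum_subsingleton _ (fun i : Fin 0 => i.elim0)]
    simp only [Finset.univ_eq_empty, Finset.prod_empty, one_mul]
    have h2 : sgn ξ = 1 := by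
      unfold sgn
      simp
    rw [h2, one_mul]
    by_cases hκ : κ = fun _ => false
    · rw [if_pos hκ, bit_neg]
      · have h3 : sgn κ = 1 := by
          rw [hκ]
          unfold sgn
          simp
        rw [h3]
        norm_num
      · rintro ⟨D, hD1, hD2⟩
        have h3 : D = univ := by
          ext v
          simp only [Finset.mem_univ, iff_true]
          rcases hD2 v with h4 | ⟨w, hw, h4⟩
          · exact h4
          · exfalso
            obtain ⟨z, rfl⟩ := hvert v
            obtain ⟨z', rfl⟩ := hvert w
            rw [adj_N] at h4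
            obtain ⟨_, h5⟩ := h4
            rw [hκ] at h5
            cases h5
        rw [h3, Finset.card_univ, hcard] at hD1
        omega
    · rw [if_neg hκ, bit_pos]
      · ring
      · obtain ⟨l, hl⟩ : ∃ l, κ l = true := by
          by_contra hcon
          push Not at hcon
          exact hκ (funext fun l => by simpa using hcon l)
        obtain ⟨l, d, hd, rfl⟩ := l
        refine ore _ (fun v => ?_) (by rw [hcard]; exact hk)
        obtain ⟨z, rfl⟩ := hvert v
        refine ⟨.inr (.inl (z - d)), ?_⟩
        rw [adj_N]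
        have h10 : z - (z - d) ≠ 0 := by
          rw [sub_sub_cancel]
          exact hd
        refine ⟨h10, ?_⟩
        have h12 : dl n (z - (z - d)) h10 = ⟨s(d, -d), d, hd, rfl⟩ := by
          unfold dl
          refine Subtype.ext ?_
          simp
        rw [h12]
        exact hl
  simp only [h1] at hr
  rw [Finset.sum_const, Finset.sum_sub_distrib, sum_sgn, Finset.sum_ite_eq' univ,
    if_pos (Finset.mem_univ _)] at hr
  simp at hr

end Pool.Agent.W99.Dom
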