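import Pool.Agent.TH669.KP.Orb
import Pool.Agent.H119R2.Kp.PVE

set_option autoImplicit false

/-!
MP_257582_lc. Vertices: `m` blocks of four vertices (elementary abelian groups of order four), one
block `ZMod N`, and `t` single vertices. The groups: all translations of the blocks of size four, and
one element which rotates `ZMod N` and swaps the coordinates in some of the blocks of size four.
-/

namespace Pool.Agent.W99.Dom

open Finset
open Pool.Agent.H119R2.Kp (GP PV)
open Pool.Agent.TH669.KP (GR GR_adj rel_orb sgn bit)

variable (m N t : ℕ)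

/-- the vertices -/
abbrev Vx : Type := (Fin m × (Bool × Bool)) ⊕ (ZMod N ⊕ Fin t)

/-- the parts -/
abbrev Sv : Type := Fin m ⊕ Option (Fin t)

/-- the part of a vertex -/
def prt : Vx m N t → Sv m t
  | .inl a => .inl a.1
  | .inr (.inl _) => .inr none
  | .inr (.inr u) => .inr (some u)

/-- pairs of parts -/
abbrev Xl : Type := {e : Sym2 (Sv m t) // ¬ e.IsDiag}

/-- differences, up to sign -/
abbrev Dl : Type := {e : Sym2 (ZMod N) // ∃ d : ZMod N, d ≠ 0 ∧ e = s(d, -d)}

/-- the orbits of pairs under the translations (and the rotation) -/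
abbrev J0 : Type := (Xl m t ⊕ Dl N) ⊕ (Fin m × Fin 3)

/-- componentwise exclusive or -/
def dx (x y : Bool × Bool) : Bool × Bool := (xor x.1 y.1, xor x.2 y.2)

/-- the three nonzero elements -/
def mt : Bool × Bool → Option (Fin 3)
  | (false, false) => none
  | (true, true) => some 0
  | (true, false) => some 1
  | (false, true) => some 2

/-- the label of a difference -/
def dl (d : ZMod N) (h : d ≠ 0) : Dl N := ⟨s(d, -d), d, h, rfl⟩

/-- pairs in the same part -/
def inner : Vx m N t → Vx m N t → Option (J0 m N t)
  | .inl a, .inl b => (mt (dx a.2 b.2)).map fun c => .inr (a.1, c)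
  | .inr (.inl z), .inr (.inl z') =>
      if h : z = z' then none else some (.inl (.inr (dl N (z - z') (sub_ne_zero.2 h))))
  | _, _ => none

/-- the orbit of a pair -/
def orb0 (v w : Vx m N t) : Option (J0 m N t) :=
  if h : prt m N t v = prt m N t w then inner m N t v w
  else some (.inl (.inl ⟨s(prt m N t v, prt m N t w), by simpa using h⟩))

theorem dx_comm (x y : Bool × Bool) : dx x y = dx y x := by
  revert x y; decide

theorem dx_cancel (x y z : Bool × Bool) : dx (dx x z) (dx y z) = dx x y := by
  revert x y z; decide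

theorem dx_dx (x z : Bool × Bool) : dx (dx x z) z = x := by
  revert x z; decide

theorem dx_dx' (x z : Bool × Bool) : dx x (dx x z) = z := by
  revert x z; decide

theorem dx_zero (x : Bool × Bool) : dx x (false, false) = x := by
  revert x; decide

theorem dx_zz (x y z : Bool × Bool) : dx (dx x y) z = dx (dx x z) y := by
  revert x y z; decide

theorem mt_none (x y : Bool × Bool) : mt (dx x y) = none ↔ x = y := by
  revert x y; decide

theorem dx_swap (x y : Bool × Bool) : dx x.swap y.swap = (dx x y).swap := by
  revert x y; decide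

theorem dl_neg (d : ZMod N) (h : d ≠ 0) : dl N (-d) (neg_ne_zero.2 h) = dl N d h := by
  unfold dl
  refine Subtype.ext ?_
  simp only [neg_neg]
  exact Sym2.eq_swap

theorem dl_eq {d e : ZMod N} {hd : d ≠ 0} {he : e ≠ 0} (h : dl N d hd = dl N e he) :
    d = e ∨ d = -e := by
  unfold dl at h
  have h1 := congrArg Subtype.val h
  simp only [Sym2.eq_iff] at h1
  rcases h1 with h1 | h1
  · exact Or.inl h1.1
  · exact Or.inr h1.1

theorem orb0_symm (v w : Vx m N t) : orb0 m N t v w = orb0 m N t w v := by
  unfold orb0
  by_cases h : prt m N t v = prt m N t w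
  · rw [dif_pos h, dif_pos h.symm]
    rcases v with a | (z | u) <;> rcases w with b | (z' | u')
    · simp only [prt, Sum.inl.injEq] at h
      simp only [inner, dx_comm a.2 b.2, h]
    · simp [prt] at h
    · simp [prt] at h
    · simp [prt] at h
    · by_cases hz : z = z'
      · subst hz; rfl
      · simp only [inner, dif_neg hz, dif_neg (Ne.symm hz), Option.some.injEq, Sum.inl.injEq,
          Sum.inr.injEq]
        have h1 := dl_neg N (z - z') (sub_ne_zero.2 hz)
        rw [← h1]
        congr 1
        ring
    · simp [prt] at h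
    · simp [prt] at h
    · simp [prt] at h
    · rfl
  · rw [dif_neg h, dif_neg (fun h' => h h'.symm)]
    simp only [Option.some.injEq, Sum.inl.injEq, Subtype.mk.injEq]
    exact Sym2.eq_swap

theorem orb0_self (v : Vx m N t) : orb0 m N t v v = none := by
  unfold orb0
  rw [dif_pos rfl]
  rcases v with a | (z | u)
  · simp only [inner]
    rw [(mt_none a.2 a.2).2 rfl]
    rfl
  · simp [inner]
  · rfl

theorem orb0_ne_none (v w : Vx m N t) (h : v ≠ w) : orb0 m N t v w ≠ none := by
  unfold orb0
  by_cases hp : prt m N t v = prt m N t w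
  · rw [dif_pos hp]
    rcases v with a | (z | u) <;> rcases w with b | (z' | u')
    · simp only [prt, Sum.inl.injEq] at hp
      intro h1
      simp only [inner, Option.map_eq_none_iff, mt_none] at h1
      exact h (congrArg Sum.inl (Prod.ext hp h1))
    · simp [prt] at hp
    · simp [prt] at hp
    · simp [prt] at hp
    · have hz : ¬ z = z' := fun h2 => h (by rw [h2])
      simp [inner, hz]
    · simp [prt] at hp
    · simp [prt] at hp
    · simp [prt] at hp
    · simp only [prt, Sum.inr.injEq, Option.some.injEq] at hp
      exact absurd (by rw [hp]) h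
  · rw [dif_neg hp]
    simp

/-- every element of `J0` is the orbit of a pair -/
theorem orb0_exists [NeZero N] (j : J0 m N t) : ∃ v w, orb0 m N t v w = some j := by
  rcases j with (j | d) | ⟨i, c⟩
  · obtain ⟨e, he⟩ := j
    induction e using Sym2.ind with
    | _ p q =>
      have hpq : ¬ p = q := by simpa using he
      have hrep : ∀ p : Sv m t, ∃ v, prt m N t v = p := by
        rintro (i | (_ | u))
        · exact ⟨.inl (i, (false, false)), rfl⟩
        · exact ⟨.inr (.inl 0), rfl⟩
        · exact ⟨.inr (.inr u), rfl⟩
      obtain ⟨v, hv⟩ := hrep p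
      obtain ⟨w, hw⟩ := hrep q
      refine ⟨v, w, ?_⟩
      unfold orb0
      rw [dif_neg (by rw [hv, hw]; exact hpq)]
      simp only [hv, hw]
  · obtain ⟨e, d, hd, rfl⟩ := d
    refine ⟨.inr (.inl d), .inr (.inl 0), ?_⟩
    unfold orb0
    rw [dif_pos (show prt m N t (.inr (.inl d)) = prt m N t (.inr (.inl 0)) from rfl)]
    simp only [inner, dif_neg hd, sub_zero]
    rfl
  · have hc : ∃ x : Bool × Bool, mt (dx x (false, false)) = some c := by
      revert c; decide
    obtain ⟨x, hx⟩ := hc
    refine ⟨.inl (i, x), .inl (i, (false, false)), ?_⟩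
    unfold orb0
    rw [dif_pos (show prt m N t (.inl (i, x)) = prt m N t (.inl (i, (false, false))) from rfl)]
    simp only [inner, hx]
    rfl

/-- the labels in a block: three matchings, or one matching and a cycle -/
abbrev T (b : Bool) : Type := {c : Fin 3 // b = true → c ≠ 2}

/-- merging of the labels `1` and `2` -/
def cmp (b : Bool) (c : Fin 3) : T b :=
  if h : b = true → c ≠ 2 then ⟨c, h⟩ else ⟨1, fun _ => by decide⟩

theorem cmp_surj (b : Bool) (c : T b) : ∃ c', cmp b c' = c := by
  obtain ⟨c, hc⟩ := c
  exact ⟨c, by unfold cmp; rw [dif_pos hc]⟩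

/-- the orbits -/
abbrev Je (ε : Fin m → Bool) : Type := (Xl m t ⊕ Dl N) ⊕ (Σ i : Fin m, T (ε i))

/-- merging of the labels -/
def cmpE (ε : Fin m → Bool) : J0 m N t → Je m N t ε
  | .inl x => .inl x
  | .inr a => .inr ⟨a.1, cmp (ε a.1) a.2⟩

theorem cmpE_surj (ε : Fin m → Bool) (j : Je m N t ε) : ∃ j0, cmpE m N t ε j0 = j := by
  rcases j with x | ⟨i, c⟩
  · exact ⟨.inl x, rfl⟩
  · obtain ⟨c', hc'⟩ := cmp_surj (ε i) c
    exact ⟨.inr (i, c'), by unfold cmpE; simp only [hc']⟩

/-- the orbit of a pair for the group with the element `cG` -/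
def orbE (ε : Fin m → Bool) (v w : Vx m N t) : Option (Je m N t ε) :=
  (orb0 m N t v w).map (cmpE m N t ε)

theorem orbE_symm (ε : Fin m → Bool) (v w : Vx m N t) :
    orbE m N t ε v w = orbE m N t ε w v := by
  unfold orbE
  rw [orb0_symm]

theorem orbE_self (ε : Fin m → Bool) (v : Vx m N t) : orbE m N t ε v v = none := by
  unfold orbE
  rw [orb0_self]
  rfl

theorem orbE_ne_none (ε : Fin m → Bool) (v w : Vx m N t) (h : v ≠ w) :
    orbE m N t ε v w ≠ none := by
  unfold orbE
  intro h1
  rw [Option.map_eq_none_iff] at h1
  exact orb0_ne_none m N t v w h h1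

theorem orbE_exists [NeZero N] (ε : Fin m → Bool) (j : Je m N t ε) :
    ∃ v w, orbE m N t ε v w = some j := by
  obtain ⟨j0, rfl⟩ := cmpE_surj m N t ε j
  obtain ⟨v, w, h⟩ := orb0_exists m N t j0
  exact ⟨v, w, by unfold orbE; rw [h]; rfl⟩

/-- translations -/
def tr (τ : Fin m → Bool × Bool) : Equiv.Perm (Vx m N t) where
  toFun
    | .inl a => .inl (a.1, dx a.2 (τ a.1))
    | .inr z => .inr z
  invFun
    | .inl a => .inl (a.1, dx a.2 (τ a.1))
    | .inr z => .inr z
  left_inv := by
    rintro (a | z)
    · simp only [dx_dx]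
    · rfl
  right_inv := by
    rintro (a | z)
    · simp only [dx_dx]
    · rfl

theorem tr_inl (τ : Fin m → Bool × Bool) (a : Fin m × (Bool × Bool)) :
    tr m N t τ (.inl a) = .inl (a.1, dx a.2 (τ a.1)) := rfl

theorem tr_inr (τ : Fin m → Bool × Bool) (z : ZMod N ⊕ Fin t) :
    tr m N t τ (.inr z) = .inr z := rfl

/-- rotation of `ZMod N`, and exchange of the coordinates in the blocks with `ε i = true` -/
def cG (ε : Fin m → Bool) : Equiv.Perm (Vx m N t) where
  toFun
    | .inl a => .inl (a.1, if ε a.1 = true then a.2.swap else a.2)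
    | .inr (.inl z) => .inr (.inl (z + 1))
    | .inr (.inr u) => .inr (.inr u)
  invFun
    | .inl a => .inl (a.1, if ε a.1 = true then a.2.swap else a.2)
    | .inr (.inl z) => .inr (.inl (z - 1))
    | .inr (.inr u) => .inr (.inr u)
  left_inv := by
    rintro (a | (z | u))
    · by_cases h : ε a.1 = true <;> simp [h]
    · simp
    · rfl
  right_inv := by
    rintro (a | (z | u))
    · by_cases h : ε a.1 = true <;> simp [h]
    · simp
    · rfl

theorem tr_comm (τ τ' : Fin m → Bool × Bool) :
    tr m N t τ * tr m N t τ' = tr m N t τ' * tr m N t τ := by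
  ext v
  rcases v with a | z
  · simp only [Equiv.Perm.mul_apply, tr_inl, dx_zz a.2 (τ a.1)]
  · rfl

theorem tr_sq (τ : Fin m → Bool × Bool) : tr m N t τ ^ 2 = 1 := by
  rw [pow_two]
  ext v
  rcases v with a | z
  · simp only [Equiv.Perm.mul_apply, tr_inl, dx_dx, Equiv.Perm.one_apply]
  · rfl

theorem cG_conj (ε : Fin m → Bool) (τ : Fin m → Bool × Bool) :
    (cG m N t ε)⁻¹ * tr m N t τ * cG m N t ε =
      tr m N t (fun i => if ε i = true then (τ i).swap else τ i) := by
  rw [mul_assoc, inv_mul_eq_iff_eq_mul]
  ext v
  rcases v with a | (z | u)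
  · simp only [Equiv.Perm.mul_apply, tr_inl, cG, Equiv.coe_fn_mk]
    by_cases h : ε a.1 = true
    · simp only [h, if_true]
      rw [← dx_swap, Prod.swap_swap]
    · simp only [h]
      rfl
  · rfl
  · rfl

theorem prt_tr (τ : Fin m → Bool × Bool) (v : Vx m N t) :
    prt m N t (tr m N t τ v) = prt m N t v := by
  rcases v with a | (z | u) <;> rfl

theorem prt_cG (ε : Fin m → Bool) (v : Vx m N t) :
    prt m N t (cG m N t ε v) = prt m N t v := by
  rcases v with a | (z | u) <;> rfl

theorem orb0_tr (τ : Fin m → Bool × Bool) (v w : Vx m N t) :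
    orb0 m N t (tr m N t τ v) (tr m N t τ w) = orb0 m N t v w := by
  unfold orb0
  simp only [prt_tr]
  by_cases h : prt m N t v = prt m N t w
  · rw [dif_pos h, dif_pos h]
    rcases v with a | (z | u) <;> rcases w with b | (z' | u')
    · simp only [prt, Sum.inl.injEq] at h
      simp only [tr_inl, inner, h, dx_cancel]
    all_goals rfl
  · rw [dif_neg h, dif_neg h]

theorem mt_swap (x : Bool × Bool) : (mt x.swap).map (cmp true) = (mt x).map (cmp true) := by
  revert x; decide

theorem orbE_tr (ε : Fin m → Bool) (τ : Fin m → Bool × Bool) (v w : Vx m N t) :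
    orbE m N t ε (tr m N t τ v) (tr m N t τ w) = orbE m N t ε v w := by
  unfold orbE
  rw [orb0_tr]

theorem orbE_cG (ε : Fin m → Bool) (v w : Vx m N t) :
    orbE m N t ε (cG m N t ε v) (cG m N t ε w) = orbE m N t ε v w := by
  unfold orbE orb0
  simp only [prt_cG]
  by_cases h : prt m N t v = prt m N t w
  · rw [dif_pos h, dif_pos h]
    rcases v with a | (z | u) <;> rcases w with b | (z' | u')
    · simp only [prt, Sum.inl.injEq] at h
      simp only [cG, Equiv.coe_fn_mk, inner, h, Option.map_map]
      by_cases he : ε b.1 = true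
      · simp only [he, if_true]
        rw [dx_swap]
        have h1 := mt_swap (dx a.2 b.2)
        have h2 : ∀ o : Option (Fin 3), Option.map (cmpE m N t ε ∘ fun c => Sum.inr (b.1, c)) o =
            (o.map (cmp (ε b.1))).map (fun c => Sum.inr ⟨b.1, c⟩) := by
          intro o
          rw [Option.map_map]
          rfl
        have h3 : ∀ b', b' = true → (mt (dx a.2 b.2).swap).map (cmp b') =
            (mt (dx a.2 b.2)).map (cmp b') := by
          rintro _ rfl
          exact h1
        rw [h2, h2, h3 _ he]
      · simp only [he]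
        rfl
    · simp [prt] at h
    · simp [prt] at h
    · simp [prt] at h
    · by_cases hz : z = z'
      · subst hz
        simp [cG, inner]
      · have hz' : ¬ z + 1 = z' + 1 := fun h' => hz (add_right_cancel h')
        simp only [cG, Equiv.coe_fn_mk, inner, dif_neg hz, dif_neg hz', add_sub_add_right_eq_sub]
    · simp [prt] at h
    · simp [prt] at h
    · simp [prt] at h
    · rfl
  · rw [dif_neg h, dif_neg h]

/-- the group -/
abbrev Gr (ε : Fin m → Bool) : Subgroup (Equiv.Perm (Vx m N t)) :=
  Subgroup.closure (insert (cG m N t ε) (Set.range (tr m N t)))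

theorem cG_mem (ε : Fin m → Bool) : cG m N t ε ∈ Gr m N t ε :=
  Subgroup.subset_closure (Set.mem_insert _ _)

theorem tr_mem (ε : Fin m → Bool) (τ : Fin m → Bool × Bool) : tr m N t τ ∈ Gr m N t ε :=
  Subgroup.subset_closure (Set.mem_insert_of_mem _ (Set.mem_range_self τ))

theorem cG_pow (ε : Fin m → Bool) (k : ℕ) :
    (∀ z, ((cG m N t ε) ^ k) (.inr (.inl z)) = .inr (.inl (z + k))) ∧
    (∀ u, ((cG m N t ε) ^ k) (.inr (.inr u)) = .inr (.inr u)) ∧
    (∀ v, prt m N t (((cG m N t ε) ^ k) v) = prt m N t v) := by
  induction k with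
  | zero => simp
  | succ k ih =>
    obtain ⟨h1, h2, h3⟩ := ih
    refine ⟨fun z => ?_, fun u => ?_, fun v => ?_⟩
    · rw [pow_succ', Equiv.Perm.mul_apply, h1]
      simp only [cG, Equiv.coe_fn_mk]
      congr 2
      push_cast
      ring
    · rw [pow_succ', Equiv.Perm.mul_apply, h2]
      rfl
    · rw [pow_succ', Equiv.Perm.mul_apply, prt_cG, h3]

/-- rotation by an arbitrary amount -/
theorem rot_mem [NeZero N] (ε : Fin m → Bool) (d : ZMod N) : ∃ g ∈ Gr m N t ε,
    (∀ z, g (.inr (.inl z)) = .inr (.inl (z + d))) ∧ (∀ u, g (.inr (.inr u)) = .inr (.inr u)) ∧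
    ∀ v, prt m N t (g v) = prt m N t v := by
  obtain ⟨h1, h2, h3⟩ := cG_pow m N t ε d.val
  refine ⟨cG m N t ε ^ d.val, Subgroup.pow_mem _ (cG_mem m N t ε) _, fun z => ?_, h2, h3⟩
  rw [h1]
  simp

/-- two vertices in different parts can be moved by a translation, if they are in the right
position in the parts which are not blocks of size four -/
theorem tr_pair (v v' w w' : Vx m N t) (hv : prt m N t v = prt m N t v')
    (hw : prt m N t w = prt m N t w') (hvw : prt m N t v ≠ prt m N t w)
    (hv1 : ∀ z, v = .inr z → v = v') (hw1 : ∀ z, w = .inr z → w = w') :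
    ∃ τ, tr m N t τ v = v' ∧ tr m N t τ w = w' := by
  rcases v with a | z
  · rcases v' with a' | (z' | u')
    · simp only [prt, Sum.inl.injEq] at hv
      rcases w with b | y
      · rcases w' with b' | (z' | u')
        · simp only [prt, Sum.inl.injEq] at hw
          simp only [prt, ne_eq, Sum.inl.injEq] at hvw
          refine ⟨fun i => if i = a.1 then dx a.2 a'.2 else dx b.2 b'.2, ?_, ?_⟩
          · rw [tr_inl, if_pos rfl, dx_dx']
            exact congrArg Sum.inl (Prod.ext hv rfl)
          · rw [tr_inl, if_neg (fun h => hvw h.symm), dx_dx']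
            exact congrArg Sum.inl (Prod.ext hw rfl)
        · simp [prt] at hw
        · simp [prt] at hw
      · refine ⟨fun _ => dx a.2 a'.2, ?_, ?_⟩
        · rw [tr_inl, dx_dx']
          exact congrArg Sum.inl (Prod.ext hv rfl)
        · rw [tr_inr]
          exact hw1 _ rfl
    · simp [prt] at hv
    · simp [prt] at hv
  · have h1 := hv1 _ rfl
    rcases w with b | y
    · rcases w' with b' | (z' | u')
      · simp only [prt, Sum.inl.injEq] at hw
        refine ⟨fun _ => dx b.2 b'.2, ?_, ?_⟩
        · rw [tr_inr]
          exact h1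
        · rw [tr_inl, dx_dx']
          exact congrArg Sum.inl (Prod.ext hw rfl)
      · simp [prt] at hw
      · simp [prt] at hw
    · exact ⟨fun _ => (false, false), by rw [tr_inr]; exact h1, by rw [tr_inr]; exact hw1 _ rfl⟩

theorem trans_cross [NeZero N] (ε : Fin m → Bool) (v v' w w' : Vx m N t)
    (hv : prt m N t v = prt m N t v') (hw : prt m N t w = prt m N t w')
    (hvw : prt m N t v ≠ prt m N t w) :
    ∃ g ∈ Gr m N t ε, g v = v' ∧ g w = w' := by
  have hd : ∃ d : ZMod N, (∀ z z', v = .inr (.inl z) → v' = .inr (.inl z') → z + d = z') ∧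
      (∀ z z', w = .inr (.inl z) → w' = .inr (.inl z') → z + d = z') := by
    by_cases h1 : ∃ z z', v = .inr (.inl z) ∧ v' = .inr (.inl z')
    · obtain ⟨z, z', rfl, rfl⟩ := h1
      refine ⟨z' - z, ?_, ?_⟩
      · intro y y' h1 h2
        simp only [Sum.inr.injEq, Sum.inl.injEq] at h1 h2
        subst h1 h2
        ring
      · intro y y' h1 _
        rw [h1] at hvw
        exact absurd rfl hvw
    · by_cases h2 : ∃ z z', w = .inr (.inl z) ∧ w' = .inr (.inl z')
      · obtain ⟨z, z', rfl, rfl⟩ := h2
        refine ⟨z' - z, ?_, ?_⟩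
        · intro y y' h3 _
          rw [h3] at hvw
          exact absurd rfl hvw
        · intro y y' h1 h2
          simp only [Sum.inr.injEq, Sum.inl.injEq] at h1 h2
          subst h1 h2
          ring
      · exact ⟨0, fun z z' h3 h4 => absurd ⟨z, z', h3, h4⟩ h1,
          fun z z' h3 h4 => absurd ⟨z, z', h3, h4⟩ h2⟩
  obtain ⟨d, hd1, hd2⟩ := hd
  obtain ⟨g, hg, hgN, hgU, hgp⟩ := rot_mem m N t ε d
  have key : ∀ x x' : Vx m N t, prt m N t x = prt m N t x' →
      (∀ z z', x = .inr (.inl z) → x' = .inr (.inl z') → z + d = z') →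
      ∀ z, g x = .inr z → g x = x' := by
    intro x x' hx hxd z hz
    rcases x with a | (y | u)
    · exfalso
      have h1 := hgp (.inl a)
      rw [hz] at h1
      rcases z with z | z <;> simp [prt] at h1
    · rcases x' with a' | (y' | u')
      · simp [prt] at hx
      · rw [hgN, hxd y y' rfl rfl]
      · simp [prt] at hx
    · rcases x' with a' | (y' | u')
      · simp [prt] at hx
      · simp [prt] at hx
      · simp only [prt, Sum.inr.injEq, Option.some.injEq] at hx
        rw [hgU, hx]
  obtain ⟨τ, h1, h2⟩ := tr_pair m N t (g v) v' (g w) w' ((hgp v).trans hv) ((hgp w).trans hw)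
    (by rw [hgp, hgp]; exact hvw) (key v v' hv hd1) (key w w' hw hd2)
  exact ⟨tr m N t τ * g, Subgroup.mul_mem _ (tr_mem m N t ε τ) hg, h1, h2⟩

theorem cmp_eq {b : Bool} {x y : Bool × Bool} {c c' : Fin 3} (hx : mt x = some c)
    (hy : mt y = some c') (h : cmp b c = cmp b c') : x = y ∨ (b = true ∧ x.swap = y) := by
  revert b x y c c'
  decide

theorem orbE_trans [NeZero N] (ε : Fin m → Bool) (j : Je m N t ε) (v w v' w' : Vx m N t)
    (h : orbE m N t ε v w = some j) (h' : orbE m N t ε v' w' = some j) :
    ∃ g ∈ Gr m N t ε, (g v = v' ∧ g w = w') ∨ (g v = w' ∧ g w = v') := by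
  unfold orbE orb0 at h h'
  by_cases hp : prt m N t v = prt m N t w
  · rw [dif_pos hp] at h
    by_cases hp' : prt m N t v' = prt m N t w'
    · rw [dif_pos hp'] at h'
      rcases v with a | (z | u) <;> rcases w with b | (y | u₂)
      · simp only [inner, Option.map_map, Option.map_eq_some_iff, Function.comp_apply] at h
        obtain ⟨c, hc, rfl⟩ := h
        rcases v' with a' | (z' | u') <;> rcases w' with b' | (y' | u₂')
        · simp only [inner, Option.map_map, Option.map_eq_some_iff, Function.comp_apply] at h'
          obtain ⟨c', hc', h2⟩ := h'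
          simp only [prt, Sum.inl.injEq] at hp hp'
          simp only [cmpE, Sum.inr.injEq, Sigma.mk.injEq] at h2
          obtain ⟨h3, h4⟩ := h2
          have h5 : cmp (ε a.1) c = cmp (ε a.1) c' := by
            have h6 : ∀ i, i = a.1 → HEq (cmp (ε i) c') (cmp (ε a.1) c) →
                cmp (ε a.1) c = cmp (ε a.1) c' := by
              rintro i rfl h7
              exact (eq_of_heq h7).symm
            exact h6 _ h3 h4
          rcases cmp_eq hc hc' h5 with h6 | ⟨h6, h7⟩
          · refine ⟨tr m N t fun _ => dx a.2 a'.2, tr_mem m N t ε _, Or.inl ⟨?_, ?_⟩⟩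
            · rw [tr_inl, dx_dx']
              exact congrArg Sum.inl (Prod.ext h3.symm rfl)
            · rw [tr_inl]
              refine congrArg Sum.inl (Prod.ext (hp.symm.trans (h3.symm.trans hp')) ?_)
              have : dx b.2 (dx a.2 a'.2) = dx (dx a.2 b.2) a'.2 := by
                rw [dx_comm b.2, dx_zz]
              simp only
              rw [this, h6, dx_comm a'.2, dx_dx]
          · refine ⟨(tr m N t fun _ => dx a.2.swap a'.2) * cG m N t ε,
              Subgroup.mul_mem _ (tr_mem m N t ε _) (cG_mem m N t ε), Or.inl ⟨?_, ?_⟩⟩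
            · rw [Equiv.Perm.mul_apply]
              simp only [cG, Equiv.coe_fn_mk, h6, if_true]
              rw [tr_inl, dx_dx']
              exact congrArg Sum.inl (Prod.ext h3.symm rfl)
            · rw [Equiv.Perm.mul_apply]
              simp only [cG, Equiv.coe_fn_mk, ← hp, h6, if_true]
              rw [tr_inl]
              refine congrArg Sum.inl (Prod.ext (h3.symm.trans hp') ?_)
              have : dx b.2.swap (dx a.2.swap a'.2) = dx (dx a.2.swap b.2.swap) a'.2 := by
                rw [dx_comm b.2.swap, dx_zz]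
              simp only
              rw [this, dx_swap, h7, dx_comm a'.2, dx_dx]
        · simp [prt] at hp'
        · simp [prt] at hp'
        · simp [prt] at hp'
        · exfalso
          simp only [inner] at h'
          split_ifs at h' with h8
          · simp at h'
          · simp [cmpE] at h'
        · simp [prt] at hp'
        · simp [prt] at hp'
        · simp [prt] at hp'
        · simp [inner] at h'
      · simp [prt] at hp
      · simp [prt] at hp
      · simp [prt] at hp
      · by_cases hz : z = y
        · simp [inner, hz] at h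
        simp only [inner, dif_neg hz, Option.map_some, Option.some.injEq, cmpE] at h
        subst h
        rcases v' with a' | (z' | u') <;> rcases w' with b' | (y' | u₂')
        · exfalso
          simp only [inner, Option.map_map, Option.map_eq_some_iff, Function.comp_apply] at h'
          obtain ⟨c', hc', h2⟩ := h'
          simp [cmpE] at h2
        · simp [prt] at hp'
        · simp [prt] at hp'
        · simp [prt] at hp'
        · by_cases hz' : z' = y'
          · simp [inner, hz'] at h'
          simp only [inner, dif_neg hz', Option.map_some, Option.some.injEq, cmpE,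
            Sum.inl.injEq, Sum.inr.injEq] at h'
          rcases dl_eq N h' with h1 | h1
          · obtain ⟨g, hg, h2, -, -⟩ := rot_mem m N t ε (z' - z)
            refine ⟨g, hg, Or.inl ⟨?_, ?_⟩⟩
            · rw [h2]
              congr 2
              ring
            · rw [h2]
              congr 2
              have : y' = z' - (z - y) := by rw [← h1]; ring
              rw [this]
              ring
          · obtain ⟨g, hg, h2, -, -⟩ := rot_mem m N t ε (y' - z)
            refine ⟨g, hg, Or.inr ⟨?_, ?_⟩⟩
            · rw [h2]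
              congr 2
              ring
            · rw [h2]
              congr 2
              have : y' = z' + (z - y) := by
                have h3 : z' = y' - (z - y) := by
                  rw [sub_eq_iff_eq_add.1 h1]
                  ring
                rw [h3]; ring
              rw [this]
              ring
        · simp [prt] at hp'
        · simp [prt] at hp'
        · simp [prt] at hp'
        · simp [inner] at h'
      · simp [prt] at hp
      · simp [prt] at hp
      · simp [prt] at hp
      · simp [inner] at h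
    · exfalso
      rw [dif_neg hp'] at h'
      simp only [Option.map_some, Option.some.injEq, cmpE] at h'
      subst h'
      rcases v with a | (z | u) <;> rcases w with b | (y | u₂)
      · simp only [inner, Option.map_map, Option.map_eq_some_iff, Function.comp_apply] at h
        obtain ⟨c', hc', h2⟩ := h
        simp [cmpE] at h2
      · simp [prt] at hp
      · simp [prt] at hp
      · simp [prt] at hp
      · simp only [inner] at h
        split_ifs at h with h8
        · simp at h
        · simp [cmpE] at h
      · simp [prt] at hp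
      · simp [prt] at hp
      · simp [prt] at hp
      · simp [inner] at h
  · rw [dif_neg hp] at h
    simp only [Option.map_some, Option.some.injEq, cmpE] at h
    subst h
    by_cases hp' : prt m N t v' = prt m N t w'
    · exfalso
      rw [dif_pos hp'] at h'
      rcases v' with a | (z | u) <;> rcases w' with b | (y | u₂)
      · simp only [inner, Option.map_map, Option.map_eq_some_iff, Function.comp_apply] at h'
        obtain ⟨c', hc', h2⟩ := h'
        simp [cmpE] at h2
      · simp [prt] at hp'
      · simp [prt] at hp'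
      · simp [prt] at hp'
      · simp only [inner] at h'
        split_ifs at h' with h8
        · simp at h'
        · simp [cmpE] at h'
      · simp [prt] at hp'
      · simp [prt] at hp'
      · simp [prt] at hp'
      · simp [inner] at h'
    · rw [dif_neg hp'] at h'
      simp only [Option.map_some, Option.some.injEq, cmpE, Sum.inl.injEq, Subtype.mk.injEq,
        Sym2.eq_iff] at h'
      rcases h' with ⟨h1, h2⟩ | ⟨h1, h2⟩
      · obtain ⟨g, hg, h3⟩ := trans_cross m N t ε v v' w w' h1.symm h2.symm hp
        exact ⟨g, hg, Or.inl h3⟩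
      · obtain ⟨g, hg, h3⟩ := trans_cross m N t ε v w' w v' h2.symm h1.symm hp
        exact ⟨g, hg, Or.inr h3⟩

noncomputable instance [NeZero N] : Fintype (Dl N) := Fintype.ofFinite _

instance instDXl : DecidableEq (Xl m t) := inferInstance

instance instDDl : DecidableEq (Dl N) := inferInstance

instance instDT (ε : Fin m → Bool) : DecidableEq (Σ i : Fin m, T (ε i)) := inferInstance

instance instDJe (ε : Fin m → Bool) : DecidableEq (Je m N t ε) := instDecidableEqSum

instance instFT (ε : Fin m → Bool) : Fintype (Σ i : Fin m, T (ε i)) := inferInstance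

/-- the graph of a configuration, for the group with the element `cG` -/
abbrev GE (ε : Fin m → Bool) (χ : Je m N t ε → Bool) : SimpleGraph (Vx m N t) :=
  GR (orbE m N t ε) (orbE_symm m N t ε) (orbE_self m N t ε) χ

/-- the graph of a configuration -/
abbrev G0 (χ : J0 m N t → Bool) : SimpleGraph (Vx m N t) :=
  GR (orb0 m N t) (orb0_symm m N t) (orb0_self m N t) χ

theorem GE_eq (ε : Fin m → Bool) (χ : Je m N t ε → Bool) :
    GE m N t ε χ = G0 m N t (fun j => χ (cmpE m N t ε j)) := by
  ext v w
  rw [GR_adj, GR_adj]
  unfold orbE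
  constructor
  · rintro ⟨j, hj, hχ⟩
    rw [Option.map_eq_some_iff] at hj
    obtain ⟨j0, h1, rfl⟩ := hj
    exact ⟨j0, h1, hχ⟩
  · rintro ⟨j0, h1, hχ⟩
    exact ⟨_, by rw [h1]; rfl, hχ⟩

/-- the relation -/
theorem relation [NeZero N] (ε : Fin m → Bool) {n q : ℕ}
    {Q : SimpleGraph (Fin n) → Prop}
    (hQ : GP n q Q) (hV : 4 * m + (N + t) = n) (hq : q < n.choose 2) :
    ∑ χ : Je m N t ε → Bool, sgn χ *
      bit (PV Q (Vx m N t) (G0 m N t (fun j => χ (cmpE m N t ε j)))) = 0 := by
  have : Fact (Nat.Prime 2) := ⟨Nat.prime_two⟩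
  have h := rel_orb hQ (V := Vx m N t) ?_ 2 (tr m N t) (cG m N t ε) (tr_comm m N t)
    (tr_sq m N t) ?_ (orbE m N t ε)
    (orbE_symm m N t ε) (orbE_self m N t ε) (orbE_ne_none m N t ε)
    (orbE_tr m N t ε) (orbE_cG m N t ε) (orbE_exists m N t ε)
    (orbE_trans m N t ε) hq
  · rw [← h]
    refine Finset.sum_congr rfl fun χ _ => ?_
    rw [← GE_eq]
  · simp only [Fintype.card_sum, Fintype.card_fin, Fintype.card_prod, ZMod.card,
      Fintype.card_bool]
    omega
  · intro i
    rw [cG_conj]
    exact Subgroup.subset_closure (Set.mem_range_self _)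

end Pool.Agent.W99.Dom
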