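import Pool.Agent.W99.Dom.Model

set_option autoImplicit false

/-!
MP_257582_lc. The sum of the relations over the groups: every block of size four gets a weight.
-/

namespace Pool.Agent.W99.Dom

open Finset
open Pool.Agent.H119R2.Kp (GP PV)
open Pool.Agent.TH669.KP (GR GR_adj sgn bit sgn_sum sgn_sigma sum_split sum_sigma_fun)

/-- configurations of one block of size four, for one of the two groups -/
abbrev Sx : Type := Σ b : Bool, (T b → Bool)

/-- the set of matchings of a configuration -/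
def ex (s : Sx) : Fin 3 → Bool := fun c => s.2 (cmp s.1 c)

/-- the weight of a set of matchings -/
def wt (I : Fin 3 → Bool) : ℤ := ∑ s : Sx, if ex s = I then sgn s.2 else 0

theorem wt_top : wt (fun _ => true) = 0 := by decide +kernel

theorem wt_sum : ∑ I : Fin 3 → Bool, wt I = 0 := by decide +kernel

theorem wt_sum' : ∑ I : Fin 3 → Bool, (if I = (fun _ => false) then 0 else wt I) = -2 := by
  decide +kernel

variable (m N t : ℕ)

theorem push {m : ℕ} (h : (Fin m → (Fin 3 → Bool)) → ℤ) :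
    ∑ ε : Fin m → Bool, ∑ η : (Σ i, T (ε i)) → Bool,
      sgn η * h (fun i c => η ⟨i, cmp (ε i) c⟩) =
    ∑ I : Fin m → (Fin 3 → Bool), (∏ i, wt (I i)) * h I := by
  classical
  have h1 : ∀ ε : Fin m → Bool, ∑ η : (Σ i, T (ε i)) → Bool,
      sgn η * h (fun i c => η ⟨i, cmp (ε i) c⟩) =
      ∑ η : ∀ i, (T (ε i) → Bool), (∏ i, sgn (η i)) * h (fun i => ex ⟨ε i, η i⟩) := by
    intro ε
    rw [sum_sigma_fun]
    refine Finset.sum_congr rfl fun η _ => ?_
    rw [sgn_sigma]
    rfl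
  rw [Finset.sum_congr rfl fun ε _ => h1 ε]
  have h2 : ∑ ε : Fin m → Bool, ∑ η : ∀ i, (T (ε i) → Bool),
      (∏ i, sgn (η i)) * h (fun i => ex ⟨ε i, η i⟩) =
      ∑ s : Fin m → Sx, (∏ i, sgn (s i).2) * h (fun i => ex (s i)) := by
    rw [← Fintype.sum_sigma' (fun (ε : Fin m → Bool) (η : ∀ i, (T (ε i) → Bool)) =>
      (∏ i, sgn (η i)) * h (fun i => ex ⟨ε i, η i⟩))]
    let e : (Σ ε : Fin m → Bool, ∀ i, (T (ε i) → Bool)) ≃ (Fin m → Sx) :=
      { toFun := fun p i => ⟨p.1 i, p.2 i⟩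
        invFun := fun s => ⟨fun i => (s i).1, fun i => (s i).2⟩
        left_inv := fun _ => rfl
        right_inv := fun _ => rfl }
    exact Fintype.sum_equiv e _ _ fun p => rfl
  rw [h2]
  have h3 : ∀ I : Fin m → (Fin 3 → Bool), (∏ i, wt (I i)) * h I =
      ∑ s : Fin m → Sx, (∏ i, if ex (s i) = I i then sgn (s i).2 else 0) * h I := by
    intro I
    unfold wt
    rw [Finset.prod_univ_sum, Fintype.piFinset_univ, Finset.sum_mul]
  rw [Finset.sum_congr rfl fun I _ => h3 I, Finset.sum_comm]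
  refine Finset.sum_congr rfl fun s _ => ?_
  rw [Finset.sum_eq_single (fun i => ex (s i))]
  · simp
  · intro I _ hI
    obtain ⟨i, hi⟩ : ∃ i, I i ≠ ex (s i) := by
      by_contra hcon
      push Not at hcon
      exact hI (funext hcon)
    rw [Finset.prod_eq_zero (Finset.mem_univ i), zero_mul]
    rw [if_neg (fun h => hi h.symm)]
  · intro hI
    exact absurd (Finset.mem_univ _) hI

/-- the graph of a configuration -/
abbrev GI (ξ : Xl m t → Bool) (κ : Dl N → Bool) (I : Fin m → (Fin 3 → Bool)) :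
    SimpleGraph (Vx m N t) :=
  G0 m N t (Sum.elim (Sum.elim ξ κ) (fun a => I a.1 a.2))

/-- the sum of the relations -/
theorem relation0 [NeZero N] {n q : ℕ} {Q : SimpleGraph (Fin n) → Prop}
    (hQ : GP n q Q) (hV : 4 * m + (N + t) = n) (hq : q < n.choose 2) :
    ∑ ξ : Xl m t → Bool, ∑ κ : Dl N → Bool, sgn ξ * sgn κ *
      ∑ I : Fin m → (Fin 3 → Bool), (∏ i, wt (I i)) *
        bit (PV Q (Vx m N t) (GI m N t ξ κ I)) = 0 := by
  have h1 : ∀ ε : Fin m → Bool, ∑ ζ : (Xl m t ⊕ Dl N) → Bool, sgn ζ *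
      ∑ η : (Σ i, T (ε i)) → Bool, sgn η * bit (PV Q (Vx m N t)
        (G0 m N t (Sum.elim ζ (fun a => η ⟨a.1, cmp (ε a.1) a.2⟩)))) = 0 := by
    intro ε
    have h := relation m N t ε hQ hV hq
    rw [sum_split] at h
    rw [← h]
    refine Finset.sum_congr rfl fun ζ _ => ?_
    rw [Finset.mul_sum]
    refine Finset.sum_congr rfl fun η _ => ?_
    rw [sgn_sum (Sum.elim ζ η)]
    simp only [Sum.elim_inl, Sum.elim_inr]
    rw [mul_assoc]
    congr 3
    congr 1
    congr 1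
    funext j
    rcases j with j | j <;> rfl
  have h2 : ∑ ζ : (Xl m t ⊕ Dl N) → Bool, sgn ζ *
      ∑ I : Fin m → (Fin 3 → Bool), (∏ i, wt (I i)) *
        bit (PV Q (Vx m N t) (G0 m N t (Sum.elim ζ (fun a => I a.1 a.2)))) = 0 := by
    have h3 : ∑ ε : Fin m → Bool, ∑ ζ : (Xl m t ⊕ Dl N) → Bool, sgn ζ *
        ∑ η : (Σ i, T (ε i)) → Bool, sgn η * bit (PV Q (Vx m N t)
          (G0 m N t (Sum.elim ζ (fun a => η ⟨a.1, cmp (ε a.1) a.2⟩)))) = 0 :=
      Finset.sum_eq_zero fun ε _ => h1 ε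
    rw [Finset.sum_comm] at h3
    rw [← h3]
    refine Finset.sum_congr rfl fun ζ _ => ?_
    rw [← Finset.mul_sum]
    congr 1
    exact (push (fun I => bit (PV Q (Vx m N t)
      (G0 m N t (Sum.elim ζ (fun a => I a.1 a.2)))))).symm
  rw [sum_split] at h2
  rw [← h2]
  refine Finset.sum_congr rfl fun ξ _ => Finset.sum_congr rfl fun κ _ => ?_
  rw [sgn_sum]
  rfl

end Pool.Agent.W99.Dom
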